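import Pool.Agent.W622.ETG.Lin

set_option autoImplicit false

/-!
Subtask AGB (basis structure of the blocks in case B when all blocks are good).
-/

namespace Pool.Agent.W358.ELG

open Module Pool.Agent.W622.ETG

section
variable {V : Type} [AddCommGroup V] [Module (ZMod 2) V] [Finite V]

/-- a dependent set contains a minimal dependent set -/
theorem exists_min (S : Set (DSub V)) (hS : ¬ sSupIndep S) :
    ∃ D : Set (DSub V), D ⊆ S ∧ ¬ sSupIndep D ∧
      ∀ D' : Set (DSub V), D' ⊆ D → D' ≠ D → sSupIndep D' := by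
  obtain ⟨D, hD⟩ := (Set.toFinite {D : Set (DSub V) | D ⊆ S ∧ ¬ sSupIndep D}).exists_minimal
    ⟨S, le_rfl, hS⟩
  refine ⟨D, hD.prop.1, hD.prop.2, fun D' h1 h2 => ?_⟩
  by_contra hc
  exact h2 (le_antisymm h1 (hD.le_of_le ⟨h1.trans hD.prop.1, hc⟩ h1))

/-- adding a block to a spanning independent set of blocks gives a minimal dependent set -/
theorem insert_min (hMD : S_MD) {e : V} (A : Fam V) (hCB : CB e A) (hG : ∀ X, Block e A X → Good A X)
    (hN : ∀ X, Block e A X → X ≠ ⊥) (T : Set (DSub V)) (hT : ∀ X ∈ T, Block e A X)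
    (hI : sSupIndep T) (hS : sSup T = ⊤) (X : DSub V) (hX : Block e A X) (hXT : X ∉ T) :
    ¬ sSupIndep (insert X T) ∧
      ∀ D' : Set (DSub V), D' ⊆ insert X T → D' ≠ insert X T → sSupIndep D' := by
  have hdep : ¬ sSupIndep (insert X T) := by
    intro h
    have h1 := h (Set.mem_insert X T)
    rw [Set.insert_sdiff_of_mem _ (Set.mem_singleton X), Set.sdiff_singleton_eq_self hXT, hS] at h1
    exact hN X hX (disjoint_top.mp h1)
  refine ⟨hdep, ?_⟩
  obtain ⟨D, hD1, hD2, hD3⟩ := exists_min _ hdep
  have hblk : ∀ Z ∈ D, Block e A Z := by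
    intro Z hZ
    rcases hD1 hZ with rfl | h
    · exact hX
    · exact hT Z h
  have hXD : X ∈ D := by
    by_contra hc
    apply hD2
    refine hI.mono ?_
    intro Z hZ
    rcases hD1 hZ with rfl | h
    · exact absurd hZ hc
    · exact h
  have htop := hMD V e A D X hCB hblk hD2 hD3 hXD (hG X hX)
  have hDe : D = insert X T := by
    refine le_antisymm hD1 ?_
    intro Y hY
    rcases hY with rfl | hY
    · exact hXD
    · by_contra hc
      have h1 := hI hY
      have h2 : sSup (D \ {X}) ≤ sSup (T \ {Y}) := by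
        apply sSup_le_sSup
        rintro Z ⟨hZ, hZX⟩
        rcases hD1 hZ with rfl | h
        · exact absurd rfl hZX
        · refine ⟨h, ?_⟩
          rintro rfl
          exact hc hZ
      rw [htop] at h2
      rw [top_le_iff.mp h2] at h1
      exact hN Y (hT Y hY) (disjoint_top.mp h1)
  rw [← hDe]
  exact hD3

/-- the members of a minimal dependent set of blocks have the same dimension -/
theorem min_dim (hMD : S_MD) {e : V} (A : Fam V) (hCB : CB e A)
    (hG : ∀ X, Block e A X → Good A X) (D : Finset (DSub V))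
    (hT : ∀ X ∈ D, Block e A X) (hD : ¬ sSupIndep (D : Set (DSub V)))
    (hmin : ∀ D' : Set (DSub V), D' ⊆ (D : Set (DSub V)) → D' ≠ (D : Set (DSub V)) → sSupIndep D')
    (X : DSub V) (hX : X ∈ D) :
    ∑ Y ∈ D, finrank (ZMod 2) Y = finrank (ZMod 2) V + finrank (ZMod 2) X := by
  classical
  have h1 : sSup ((D : Set (DSub V)) \ {X}) = ⊤ :=
    hMD V e A D X hCB (fun Z hZ => hT Z hZ) hD hmin hX (hG X (hT X hX))
  have h2 : sSupIndep ((D : Set (DSub V)) \ {X}) := by
    apply hmin _ Set.sdiff_subset
    intro h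
    have : X ∈ (D : Set (DSub V)) \ {X} := by rw [h]; exact hX
    exact this.2 rfl
  have h3 : ((D.erase X : Finset (DSub V)) : Set (DSub V)) = (D : Set (DSub V)) \ {X} :=
    Finset.coe_erase X D
  have h4 := idim (D.erase X) (by rw [h3]; exact h2)
  rw [h3, h1, finrank_top, finrank_Dl] at h4
  rw [h4, Finset.sum_erase_add D _ hX]

end

theorem t_AGB (hBNT : S_BNT) (_hBDIS : S_BDIS) (hOM : S_OM) (hAGI : S_AGI) (hMD : S_MD) :
    S_AGB := by
  classical
  intro V _ _ _ e A hCB hG
  have hnb : ∀ X, Block e A X → X ≠ ⊥ := fun X hX => (hBNT V e A X hCB.mc hX).2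
  have hnt : ∀ X, Block e A X → X ≠ ⊤ := fun X hX => (hBNT V e A X hCB.mc hX).1
  have hloc : ∀ X, Block e A X → LocBlock e A X := by
    intro X hX
    rcases hX with h | h
    · exact absurd h.1 (hCB.nc X)
    · exact h
  have hev : ∀ X, Block e A X → 1 ≤ finrank (ZMod 2) X := by
    intro X hX
    have := hOM V e A X hCB.mc.ef (hloc X hX)
    exact this.2.2.2.2.1
  obtain ⟨D', hD1, hD2, hD3⟩ := exists_min _ (hAGI V e A hCB hG)
  set D : Finset (DSub V) := (Set.toFinite D').toFinset with hDdef
  have hDD : (D : Set (DSub V)) = D' := (Set.toFinite D').coe_toFinset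
  rw [← hDD] at hD1 hD2 hD3
  have hblk : ∀ X ∈ D, Block e A X := fun X hX => hD1 hX
  -- D is nonempty
  have hne : D.Nonempty := by
    by_contra hc
    rw [Finset.not_nonempty_iff_eq_empty] at hc
    apply hD2
    rw [hc, Finset.coe_empty]
    exact sSupIndep_empty
  obtain ⟨X₀, hX₀⟩ := hne
  set d := finrank (ZMod 2) X₀ with hd
  have hsum := min_dim hMD A hCB hG D hblk hD2 hD3
  have hDe : ∀ X ∈ D, finrank (ZMod 2) X = d := by
    intro X hX
    have h1 := hsum X hX
    have h2 := hsum X₀ hX₀
    omega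
  have hX₀e := hev X₀ (hblk X₀ hX₀)
  set p := (D.erase X₀).card with hp
  have hpD : D.card = p + 1 := by
    rw [hp, Finset.card_erase_of_mem hX₀]
    have : 0 < D.card := Finset.card_pos.mpr ⟨X₀, hX₀⟩
    omega
  have hn : finrank (ZMod 2) V = d * p := by
    have h1 := hsum X₀ hX₀
    rw [Finset.sum_congr rfl hDe, Finset.sum_const, hpD, smul_eq_mul] at h1
    have : (p + 1) * d = d * p + d := by ring
    omega
  -- the basis
  have hB₀I : sSupIndep ((D.erase X₀ : Finset (DSub V)) : Set (DSub V)) := by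
    apply hD3
    · intro Z hZ
      exact Finset.mem_of_mem_erase hZ
    · intro h
      have : X₀ ∈ ((D.erase X₀ : Finset (DSub V)) : Set (DSub V)) := by rw [h]; exact hX₀
      exact absurd this (by simp)
  have hB₀S : sSup ((D.erase X₀ : Finset (DSub V)) : Set (DSub V)) = ⊤ := by
    rw [Finset.coe_erase]
    exact hMD V e A D X₀ hCB hblk hD2 hD3 hX₀ (hG X₀ (hblk X₀ hX₀))
  have hfour := hCB.four
  have hp1 : 1 ≤ p := by
    rcases Nat.eq_zero_or_pos p with h | h
    · rw [h, Nat.mul_zero] at hn
      omega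
    · exact h
  have hp2 : 2 ≤ p := by
    by_contra hc
    have hp' : p = 1 := by omega
    obtain ⟨Y, hY⟩ := Finset.card_eq_one.mp (hp.symm.trans hp')
    have hYD : Y ∈ D := Finset.mem_of_mem_erase (hY ▸ Finset.mem_singleton_self Y)
    rw [hY, Finset.coe_singleton, sSup_singleton] at hB₀S
    exact hnt Y (hblk Y hYD) hB₀S
  -- all blocks have dimension e
  have hdim : ∀ X, Block e A X → finrank (ZMod 2) X = d := by
    intro X hX
    by_cases hXB : X ∈ D.erase X₀
    · exact hDe X (Finset.mem_of_mem_erase hXB)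
    · obtain ⟨Y, hY⟩ : (D.erase X₀).Nonempty := Finset.card_pos.mp (by omega)
      have hT : ∀ Z ∈ ((D.erase X₀ : Finset (DSub V)) : Set (DSub V)), Block e A Z :=
        fun Z hZ => hblk Z (Finset.mem_of_mem_erase hZ)
      have h1 := insert_min hMD A hCB hG hnb _ hT hB₀I hB₀S X hX hXB
      rw [← Finset.coe_insert] at h1
      have hbl : ∀ Z ∈ insert X (D.erase X₀), Block e A Z := by
        intro Z hZ
        rcases Finset.mem_insert.mp hZ with rfl | hZ
        · exact hX
        · exact hT Z hZ
      have h2 := min_dim hMD A hCB hG _ hbl h1.1 h1.2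
      have h3 := h2 X (Finset.mem_insert_self _ _)
      have h4 := h2 Y (Finset.mem_insert_of_mem hY)
      have h5 := hDe Y (Finset.mem_of_mem_erase hY)
      omega
  -- exchange
  have hex : ∀ k : ℕ, ∀ B T : Finset (DSub V), (∀ X ∈ B, Block e A X) → (∀ X ∈ T, Block e A X) →
      B.card = p → T.card = p → sSupIndep (B : Set (DSub V)) → sSup (B : Set (DSub V)) = ⊤ →
      (T \ B).card = k → sSupIndep (T : Set (DSub V)) ∧ sSup (T : Set (DSub V)) = ⊤ := by
    intro k
    induction k with
    | zero =>
      intro B T _ _ hBp hTp hBI hBS hk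
      have h1 : T ⊆ B := Finset.sdiff_eq_empty_iff_subset.mp (Finset.card_eq_zero.mp hk)
      have h2 : T = B := Finset.eq_of_subset_of_card_le h1 (by omega)
      rw [h2]
      exact ⟨hBI, hBS⟩
    | succ k ih =>
      intro B T hB hT hBp hTp hBI hBS hk
      obtain ⟨X, hX⟩ : (T \ B).Nonempty := Finset.card_pos.mp (by omega)
      rw [Finset.mem_sdiff] at hX
      have h0 : (B \ T).card = (T \ B).card := Finset.card_sdiff_comm (by omega)
      obtain ⟨Y, hY⟩ : (B \ T).Nonempty := Finset.card_pos.mp (by omega)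
      rw [Finset.mem_sdiff] at hY
      have h1 := insert_min hMD A hCB hG hnb _ (fun Z hZ => hB Z hZ) hBI hBS X (hT X hX.1)
        (fun h => hX.2 h)
      rw [← Finset.coe_insert] at h1
      have hbl : ∀ Z ∈ insert X B, Block e A Z := by
        intro Z hZ
        rcases Finset.mem_insert.mp hZ with rfl | hZ
        · exact hT _ hX.1
        · exact hB Z hZ
      have hYI : Y ∈ insert X B := Finset.mem_insert_of_mem hY.1
      have hXY : X ≠ Y := by
        rintro rfl
        exact hX.2 hY.1
      apply ih ((insert X B).erase Y) T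
      · intro Z hZ
        exact hbl Z (Finset.mem_of_mem_erase hZ)
      · exact hT
      · rw [Finset.card_erase_of_mem hYI, Finset.card_insert_of_notMem hX.2, hBp]
        omega
      · exact hTp
      · apply h1.2
        · intro Z hZ
          exact Finset.mem_of_mem_erase hZ
        · intro h
          have : Y ∈ (((insert X B).erase Y : Finset (DSub V)) : Set (DSub V)) := by
            rw [h]; exact hYI
          exact absurd this (by simp)
      · rw [Finset.coe_erase]
        exact hMD V e A _ Y hCB hbl h1.1 h1.2 hYI (hG Y (hB Y hY.1))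
      · have h2 : T \ (insert X B).erase Y = (T \ B).erase X := by
          ext Z
          simp only [Finset.mem_sdiff, Finset.mem_erase, Finset.mem_insert, not_and, not_or]
          constructor
          · rintro ⟨hZT, hZ⟩
            have hZY : Z ≠ Y := by
              rintro rfl
              exact hY.2 hZT
            exact ⟨(hZ hZY).1, hZT, (hZ hZY).2⟩
          · rintro ⟨hZX, hZT, hZB⟩
            exact ⟨hZT, fun _ => ⟨hZX, hZB⟩⟩
        rw [h2, Finset.card_erase_of_mem (Finset.mem_sdiff.mpr hX), hk]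
        omega
  refine ⟨d, p, hX₀e, hp2, hn, hdim, ?_, ?_⟩
  · rw [← hpD, ← Set.ncard_coe_finset]
    exact Set.ncard_le_ncard hD1 (Set.toFinite _)
  · intro T hT hTp
    exact hex _ (D.erase X₀) T (fun Z hZ => hblk Z (Finset.mem_of_mem_erase hZ)) hT rfl hTp
      hB₀I hB₀S rfl

end Pool.Agent.W358.ELG
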